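import Pool.Agent.Work.MP_db9399_iv_helper38.RXV4

/-!
# MP_db9399, all scales, block RGX4, part V2 (helper30): the numbers
-/

set_option autoImplicit false

namespace Pool.Agent.Work.MP_db9399_rg_helper30

open Finset Classical
open Pool.Agent.Work.MP_db9399_all (nb)
open Pool.Agent.Work.MP_db9399_lt (us)
open Pool.Agent.Work.MP_db9399_da (Pcs Ty pV sV Ts sdn ptn sgp sg need thin sid)
open Pool.Agent.Work.MP_db9399_xf
open Pool.Agent.Work.MP_db9399_x4 (ub no so NuN NuB KX4)
open Pool.Agent.Work.MP_db9399_iv_helper38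

universe u

section
variable {V : Type u} [Fintype V] {N J : ℕ}

/-- number of the vertices of the side with the colour `b` -/
noncomputable def su (G : SimpleGraph V) (X : XD V N J) (t : V → V → ℕ) (n : Fin N) (β : Bool)
    (b : ℕ) : ℕ := ((sV X.P n β).filter (fun v => b ∈ Ft (xt G X) t v)).card

theorem ub_eq (G : SimpleGraph V) (X : XD V N J) (t : V → V → ℕ) (δ : Fin N → Bool → ℕ → ℕ)
    (n : Fin N) (β : Bool) (b : ℕ) : ub G X t δ n β b = su G X t n β b + δ n β b := rfl

theorem sid_us (G : SimpleGraph V) (X : XD V N J) (t : V → V → ℕ) (n : Fin N) (β : Bool)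
    (b : ℕ) (I : DecidableEq (Ts X.P n)) :
    (@Inter.inter (Finset (Ts X.P n)) (@Finset.instInter _ I) (sid (sdn X.P n) β)
      (us (Fp (xt G X) X t n) b)).card = su G X t n β b := by
  unfold su
  rw [← card_image_of_injective _ Subtype.val_injective]
  congr 1
  ext v
  simp only [mem_image, mem_inter, mem_us, Fp, mem_filter, mem_sV]
  constructor
  · rintro ⟨x, ⟨h1, h2⟩, rfl⟩
    have h3 : X.P.sd x.1 = β := (mem_filter.1 h1).2
    exact ⟨⟨x.2.1, x.2.2, h3⟩, h2⟩
  · rintro ⟨⟨h0, h1, h2⟩, h3⟩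
    exact ⟨⟨v, h0, h1⟩, ⟨mem_filter.2 ⟨mem_univ _, h2⟩, h3⟩, rfl⟩

theorem need_eq (G : SimpleGraph V) (X : XD V N J) (t : V → V → ℕ) (n : Fin N) (β : Bool)
    (b : ℕ) : need (Fp (xt G X) X t n) (sdn X.P n) β b = su G X t n (!β) b - su G X t n β b := by
  unfold need
  rw [sid_us, sid_us]

theorem sg_eq (G : SimpleGraph V) (X : XD V N J) (t : V → V → ℕ) (n : Fin N)
    (b : ℕ) : sg (Fp (xt G X) X t n) (sdn X.P n) b
      = (su G X t n false b : ℤ) - (su G X t n true b : ℤ) := by
  unfold sg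
  rw [sid_us, sid_us]

theorem us_eq (G : SimpleGraph V) (X : XD V N J) (t : V → V → ℕ) (n : Fin N)
    (b : ℕ) : (us (Fp (xt G X) X t n) b).card = su G X t n false b + su G X t n true b := by
  rw [← sid_us G X t n false b inferInstance, ← sid_us G X t n true b inferInstance,
    ← card_union_of_disjoint]
  · congr 1
    ext v
    rw [mem_union, mem_inter, mem_inter]
    constructor
    · intro h
      cases hs : sdn X.P n v
      · exact Or.inl ⟨mem_filter.2 ⟨mem_univ _, hs⟩, h⟩
      · exact Or.inr ⟨mem_filter.2 ⟨mem_univ _, hs⟩, h⟩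
    · rintro (h | h)
      · exact h.2
      · exact h.2
  · exact (disj_sid (sdn X.P n)).mono inter_subset_left inter_subset_left

/-- exchange -/
theorem exch (G : SimpleGraph V) (X : XD V N J) (t t1 : V → V → ℕ) (n : Fin N) (β : Bool)
    (b : ℕ) : su G X t1 n β b + (LVs G X t t1 n β b).card
      = su G X t n β b + (LVs G X t1 t n β b).card := by
  have h : ∀ t t1 : V → V → ℕ, su G X t n β b = ((sV X.P n β).filter fun y =>
      b ∈ Ft (xt G X) t y ∧ b ∈ Ft (xt G X) t1 y).card + (LVs G X t t1 n β b).card := by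
    intro t t1
    unfold su LVs
    rw [← card_union_of_disjoint]
    · congr 1
      ext v
      simp only [mem_union, mem_filter]
      tauto
    · rw [disjoint_left]
      intro v hv hv'
      exact (mem_filter.1 hv').2.2 (mem_filter.1 hv).2.2
  have h1 := h t t1
  have h2 := h t1 t
  have h3 : ((sV X.P n β).filter fun y => b ∈ Ft (xt G X) t1 y ∧ b ∈ Ft (xt G X) t y).card
      = ((sV X.P n β).filter fun y => b ∈ Ft (xt G X) t y ∧ b ∈ Ft (xt G X) t1 y).card := by
    congr 1
    ext v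
    simp only [mem_filter]
    tauto
  omega

variable {S : Fin J → Scl} {G : SimpleGraph V} {d : ℕ} {X : XD V N J} {A : PalX}
  {t : V → V → ℕ} {m m2 : V → ℕ} {pr f : V → V}

/-- the number of losses -/
noncomputable def ls (G : SimpleGraph V) (d : ℕ) (X : XD V N J) (t : V → V → ℕ)
    (m m2 : V → ℕ) (pr f : V → V) (n : Fin N) (β : Bool) (b : ℕ) : ℕ :=
  (LVs G X t (tn G d X t m m2 pr f) n β b).card

theorem su_tn (B : Bas4 S G d X A t m m2 pr f) (n : Fin N) (β : Bool) (b : ℕ) :
    su G X (tn G d X t m m2 pr f) n β b + ls G d X t m m2 pr f n β b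
      = ub G X t (dlt G d X m m2 pr) n β b := by
  rw [ub_eq, ← B.gx n β b]
  exact exch G X t (tn G d X t m m2 pr f) n β b

theorem need_le (B : Bas4 S G d X A t m m2 pr f) (n : Fin N) (β : Bool) (b : ℕ) :
    need (Fp (xt G X) X (tn G d X t m m2 pr f) n) (sdn X.P n) β b
      ≤ no G X t (dlt G d X m m2 pr) n β b + ls G d X t m m2 pr f n β b := by
  rw [need_eq]
  have h1 := su_tn B n β b
  have h2 := su_tn B n (!β) b
  unfold no
  omega

theorem sg_le (B : Bas4 S G d X A t m m2 pr f) (n : Fin N) (b : ℕ) {K : ℕ}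
    (h0 : no G X t (dlt G d X m m2 pr) n false b + 1 ≤ K)
    (h1 : no G X t (dlt G d X m m2 pr) n true b + 1 ≤ K) :
    |sg (Fp (xt G X) X (tn G d X t m m2 pr f) n) (sdn X.P n) b| ≤ (K : ℤ) := by
  rw [sg_eq]
  have a1 := need_le B n false b
  have a2 := need_le B n true b
  have a3 := B.lx n false b
  have a4 := B.lx n true b
  rw [need_eq] at a1 a2
  simp only [Bool.not_false, Bool.not_true] at a1 a2
  unfold ls at a1 a2
  rw [abs_le]
  constructor <;> omega

/-- no changes at the pieces which are not of type B -/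
theorem fp_eq (B : Bas4 S G d X A t m m2 pr f) {n : Fin N} (hn : X.P.ty n ≠ Ty.B) :
    Fp (xt G X) X (tn G d X t m m2 pr f) n = Fp (xt G X) X t n := by
  funext v
  unfold Fp Ft
  refine image_congr ?_
  intro w _
  unfold tn
  rcases rcl_cases B.H v.1 w with ⟨b, h, _⟩ | ⟨b, h, _⟩ | ⟨_, _, e⟩
  · exact absurd (B.H.ad _ _ _ h).1 v.2.1
  · exfalso
    obtain ⟨_, n', β, hc, hy⟩ := B.pos _ _ _ h
    rw [mem_sV] at hy
    have : n = n' := by rw [← hy.2.1]; exact v.2.2.symm
    exact hn (by rw [this]; exact hc.2.1)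
  · exact e

theorem nun (B : Bas4 S G d X A t m m2 pr f) {l x : ℝ} (hN : NuN l x S G d X A t) :
    NuN l x S G d X A (tn G d X t m m2 pr f) := by
  have hne : ∀ n, X.P.ty n = Ty.N → X.P.ty n ≠ Ty.B := by
    intro n hn h
    rw [hn] at h
    exact absurd h (by decide)
  constructor
  · intro n hn v
    rw [fp_eq B (hne n hn)]
    exact hN.rN n hn v
  · intro n hn b
    rw [fp_eq B (hne n hn)]
    exact hN.ldN n hn b
  · intro n hn i
    rw [fp_eq B (hne n hn)]
    exact hN.excN n hn i
  · intro n hn i b hb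
    rw [fp_eq B (hne n hn)]
    exact hN.supN n hn i b hb

/-- new colours in the part `j` are not in `A.Q j` -/
theorem old_of_Q (B : Bas4 S G d X A t m m2 pr f) {n : Fin N} {j : Bool} {b : ℕ} (hb : b ∈ A.Q j)
    {v : Ts X.P n} (hv : ptn X.P n v = j)
    (h : b ∈ Fp (xt G X) X (tn G d X t m m2 pr f) n v) : b ∈ Fp (xt G X) X t n v := by
  by_contra hcon
  obtain ⟨w, _, h1⟩ := ft_gain B.H hcon h
  rcases h1 with h1 | h1
  · exact v.2.1 (B.H.ad _ _ _ h1).1
  · have h2 := (B.pos _ _ _ h1).1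
    have h3 : X.P.pt v.1 = j := hv
    rw [h3] at h2
    exact h2 hb

end

theorem rpow_aux {d : ℕ} {c' : ℝ} (hc : c' ≤ 1 / 2) (hd : 625 ≤ d) :
    4 * (d : ℝ) ^ (1 / 100 : ℝ) + 1 ≤ (d : ℝ) ^ (-c') * d := by
  have hd' : (625 : ℝ) ≤ d := by exact_mod_cast hd
  have hd1 : (1 : ℝ) ≤ d := by linarith
  have hd0 : (0 : ℝ) < d := by linarith
  have h1 : (1 : ℝ) ≤ (d : ℝ) ^ (1 / 100 : ℝ) := Real.one_le_rpow hd1 (by norm_num)
  have h2 : (5 : ℝ) ≤ (d : ℝ) ^ (49 / 100 : ℝ) := by
    have h3 : (5 : ℝ) = (625 : ℝ) ^ (1 / 4 : ℝ) := by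
      rw [show (625 : ℝ) = 5 ^ (4 : ℝ) by norm_num, ← Real.rpow_mul (by norm_num)]
      norm_num
    rw [h3]
    calc (625 : ℝ) ^ (1 / 4 : ℝ) ≤ (d : ℝ) ^ (1 / 4 : ℝ) :=
          Real.rpow_le_rpow (by norm_num) hd' (by norm_num)
      _ ≤ (d : ℝ) ^ (49 / 100 : ℝ) := Real.rpow_le_rpow_of_exponent_le hd1 (by norm_num)
  have h4 : (d : ℝ) ^ (-c') * d = (d : ℝ) ^ (-c' + 1) := by
    rw [Real.rpow_add hd0, Real.rpow_one]
  have h5 : (d : ℝ) ^ (1 / 2 : ℝ) ≤ (d : ℝ) ^ (-c' + 1) :=
    Real.rpow_le_rpow_of_exponent_le hd1 (by linarith)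
  have h6 : (d : ℝ) ^ (1 / 2 : ℝ) = (d : ℝ) ^ (49 / 100 : ℝ) * (d : ℝ) ^ (1 / 100 : ℝ) := by
    rw [← Real.rpow_add hd0]
    norm_num
  rw [h4]
  nlinarith

theorem KX4_ge (C πk : ℝ) : 60 ≤ KX4 C πk := by
  unfold KX4
  omega

theorem stmt_V24 : Stmt_V24.{u} := by
  intro πk C g z τ e M J S c' u hC hc'
  obtain ⟨hπ1, hπ2, hC1, _, _, _, _, hτ, _, hc0, hSml⟩ := hC
  refine ⟨625, ?_⟩
  intro V _ N G d X A t c m m2 pr f θk θ' η hd hX hf B
  have hd' : (625 : ℝ) ≤ d := by exact_mod_cast hd
  have hd0 : (0 : ℝ) < d := by linarith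
  have hD := hX.pc.toPcD
  have hP := hX.pre
  have hK : 60 ≤ KX4 C πk := KX4_ge C πk
  have hπ3 : 0 < 1 - 3 * πk := by linarith
  -- sums of the losses
  have hls : ∀ n β, ((∑ b ∈ range (d + 2), ls G d X t m m2 pr f n β b : ℕ) : ℝ)
      ≤ 2 * (S (X.sc n)).θ * d := fun n β => B.ls n β
  refine ⟨nun B hP.toNuN, ?_, ?_⟩
  · constructor
    · -- rB
      intro n hn j
      have h1 := hP.rR n hn j
      have h2 : ((A.Q j).filter (fun b => ∃ v : Ts X.P n,
          ptn X.P n v = j ∧ b ∈ Fp (xt G X) X (tn G d X t m m2 pr f) n v)).card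
          ≤ ((A.Q j).filter (fun b => ∃ v : Ts X.P n,
          ptn X.P n v = j ∧ b ∈ Fp (xt G X) X t n v)).card := by
        refine card_le_card ?_
        intro b hb
        obtain ⟨hb1, v, hv, hb2⟩ := mem_filter.1 hb
        exact mem_filter.2 ⟨hb1, v, hv, old_of_Q B hb1 hv hb2⟩
      have h3 : (((A.Q j).filter (fun b => ∃ v : Ts X.P n,
          ptn X.P n v = j ∧ b ∈ Fp (xt G X) X (tn G d X t m m2 pr f) n v)).card : ℝ)
          ≤ (((A.Q j).filter (fun b => ∃ v : Ts X.P n,
          ptn X.P n v = j ∧ b ∈ Fp (xt G X) X t n v)).card : ℝ) := by exact_mod_cast h2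
      have h4 : (0 : ℝ) ≤ (A.Q j).card := Nat.cast_nonneg _
      linarith
    · -- ldB
      intro n hn b
      rw [us_eq]
      have h1 := su_tn B n false b
      have h2 := su_tn B n true b
      have h3 : (su G X (tn G d X t m m2 pr f) n false b : ℝ)
          ≤ ub G X t (dlt G d X m m2 pr) n false b := by
        exact_mod_cast (by omega : su G X (tn G d X t m m2 pr f) n false b
          ≤ ub G X t (dlt G d X m m2 pr) n false b)
      have h4 : (su G X (tn G d X t m m2 pr f) n true b : ℝ)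
          ≤ ub G X t (dlt G d X m m2 pr) n true b := by
        exact_mod_cast (by omega : su G X (tn G d X t m m2 pr f) n true b
          ≤ ub G X t (dlt G d X m m2 pr) n true b)
      have h5 := hP.ldR n hn false b
      have h6 := hP.ldR n hn true b
      have h7 : 0 ≤ (S (X.sc n)).θ * d := mul_nonneg (hSml _).θp.le hd0.le
      push_cast
      nlinarith
    · -- excB
      intro n hn
      have h1 : ∀ b ∈ range (d + 2),
          max (|((sg (Fp (xt G X) X (tn G d X t m m2 pr f) n) (sdn X.P n) b : ℤ) : ℝ)|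
            - (KX4 C πk : ℝ)) 0
          ≤ ((no G X t (dlt G d X m m2 pr) n false b - 8 : ℕ) : ℝ)
            + ((no G X t (dlt G d X m m2 pr) n true b - 8 : ℕ) : ℝ) := by
        intro b _
        have h2 : |sg (Fp (xt G X) X (tn G d X t m m2 pr f) n) (sdn X.P n) b|
            ≤ ((KX4 C πk + (no G X t (dlt G d X m m2 pr) n false b - 8)
              + (no G X t (dlt G d X m m2 pr) n true b - 8) : ℕ) : ℤ) :=
          sg_le B n b (by omega) (by omega)
        have h3 : |((sg (Fp (xt G X) X (tn G d X t m m2 pr f) n) (sdn X.P n) b : ℤ) : ℝ)|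
            ≤ ((KX4 C πk + (no G X t (dlt G d X m m2 pr) n false b - 8)
              + (no G X t (dlt G d X m m2 pr) n true b - 8) : ℕ) : ℝ) := by
          rw [← Int.cast_abs]
          exact_mod_cast h2
        rw [Nat.cast_add, Nat.cast_add] at h3
        refine max_le (by linarith) (by positivity)
      refine (sum_le_sum h1).trans ?_
      rw [sum_add_distrib]
      have h4 := hP.excR n hn false
      have h5 := hP.excR n hn true
      rw [Nat.cast_sum] at h4 h5
      have h6 : (0 : ℝ) ≤ (1 - 3 * πk) * (pV X.P n).card := by positivity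
      linarith
    · -- supB
      intro n hn b _
      have h1 := hP.supR n hn false b
      have h2 := hP.supR n hn true b
      have h3 := rpow_aux hc' hd
      set a0 := no G X t (dlt G d X m m2 pr) n false b
      set a1 := no G X t (dlt G d X m m2 pr) n true b
      have h4 : |sg (Fp (xt G X) X (tn G d X t m m2 pr f) n) (sdn X.P n) b|
          ≤ ((max a0 a1 + 1 : ℕ) : ℤ) :=
        sg_le B n b (by have := le_max_left a0 a1; omega) (by have := le_max_right a0 a1; omega)
      have h5 : |((sg (Fp (xt G X) X (tn G d X t m m2 pr f) n) (sdn X.P n) b : ℤ) : ℝ)|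
          ≤ ((max a0 a1 + 1 : ℕ) : ℝ) := by
        rw [← Int.cast_abs]
        exact_mod_cast h4
      rw [Nat.cast_add, Nat.cast_max, Nat.cast_one] at h5
      have h6 : max (a0 : ℝ) (a1 : ℝ) ≤ (d : ℝ) ^ (-c') * d + 4 * (d : ℝ) ^ (1 / 100 : ℝ) :=
        max_le h1 h2
      linarith
    · -- totB
      intro n hn β
      have h1 : ∑ b ∈ range (d + 2), need (Fp (xt G X) X (tn G d X t m m2 pr f) n) (sdn X.P n) β b
          ≤ ∑ b ∈ range (d + 2), no G X t (dlt G d X m m2 pr) n β b
            + ∑ b ∈ range (d + 2), ls G d X t m m2 pr f n β b := by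
        rw [← sum_add_distrib]
        exact sum_le_sum fun b _ => need_le B n β b
      have h2 : ((∑ b ∈ range (d + 2),
          need (Fp (xt G X) X (tn G d X t m m2 pr f) n) (sdn X.P n) β b : ℕ) : ℝ)
          ≤ ((∑ b ∈ range (d + 2), no G X t (dlt G d X m m2 pr) n β b : ℕ) : ℝ)
            + ((∑ b ∈ range (d + 2), ls G d X t m m2 pr f n β b : ℕ) : ℝ) := by
        exact_mod_cast h1
      have h3 := hP.totR n hn β
      have h4 := hls n β
      have h5 := Pool.Agent.Work.MP_db9399_rg_helper42.g1' hD hn β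
      have hs := hSml (X.sc n)
      have h6 : (S (X.sc n)).θ ≤ 1 / 10 ^ 8 := by
        refine hs.θ3.trans ?_
        refine div_le_div_of_nonneg_right (by linarith) (by norm_num)
      have h7 : (S (X.sc n)).ζ ≤ 1 / 2 := hs.ζ1.trans (by norm_num)
      have h8 : (S (X.sc n)).θ * d ≤ 1 / 10 ^ 8 * d := mul_le_mul_of_nonneg_right h6 hd0.le
      have h9 : 1 / 2 * (d : ℝ) ≤ (sV X.P n β).card := by nlinarith
      linarith
    · -- negB
      intro n hn j
      have h1 : ∑ b ∈ A.Q j, min (need (Fp (xt G X) X (tn G d X t m m2 pr f) n) (sdn X.P n)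
            false b) (KX4 C πk)
          ≤ ∑ b ∈ A.Q j, no G X t (dlt G d X m m2 pr) n false b
            + ∑ b ∈ range (d + 2), ls G d X t m m2 pr f n false b := by
        have h2 : ∑ b ∈ A.Q j, ls G d X t m m2 pr f n false b
            ≤ ∑ b ∈ range (d + 2), ls G d X t m m2 pr f n false b :=
          sum_le_sum_of_subset (hX.pa.Qlt j)
        refine le_trans ?_ (add_le_add_right h2 _)
        rw [← sum_add_distrib]
        exact sum_le_sum fun b _ => (min_le_left _ _).trans (need_le B n false b)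
      have h2 : ((∑ b ∈ A.Q j, min (need (Fp (xt G X) X (tn G d X t m m2 pr f) n) (sdn X.P n)
            false b) (KX4 C πk) : ℕ) : ℝ)
          ≤ ((∑ b ∈ A.Q j, no G X t (dlt G d X m m2 pr) n false b : ℕ) : ℝ)
            + ((∑ b ∈ range (d + 2), ls G d X t m m2 pr f n false b : ℕ) : ℝ) := by
        exact_mod_cast h1
      have h3 := hP.negR n hn j
      have h4 := hls n false
      have h5 := Pool.Agent.Work.MP_db9399_rg_helper42.g1' hD hn false
      have hs := hSml (X.sc n)
      have h7 : (S (X.sc n)).ζ ≤ 1 / 2 := hs.ζ1.trans (by norm_num)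
      have h9 : 1 / 2 * (d : ℝ) ≤ (sV X.P n false).card := by nlinarith
      have h10 := (hX.pa.Qc j).1
      have h11 : (S (X.sc n)).θ * d ≤ (1 - 3 * πk) / 10 ^ 8 * d :=
        mul_le_mul_of_nonneg_right hs.θ3 hd0.le
      set s := ((sV X.P n false).card : ℝ) with hsdef
      set q := ((A.Q j).card : ℝ) with hqdef
      have h12 : (1 - 3 * πk) * d ≤ 100 * q := by linarith
      have h13 : 1 / 2 ≤ s / d := by
        rw [le_div_iff₀ hd0]
        linarith
      have h14 : (3 / 5 + 1 / 300 * s / d) * q = (3 / 5 + s / (350 * d)) * q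
          + (1 / 2100) * (s / d) * q := by
        field_simp
        ring
      have hq0 : 0 ≤ q := Nat.cast_nonneg _
      have h15 : (1 / 2100) * (1 / 2) * q ≤ (1 / 2100) * (s / d) * q := by
        refine mul_le_mul_of_nonneg_right ?_ hq0
        linarith
      rw [h14]
      linarith
  · -- cvt
    intro n β w hw
    have hcov : Cov G X d w := ⟨n, β, hw⟩
    have hcn : cn G d X t c f w = t w (f w) := by
      unfold cn
      rw [if_pos hcov]
    rw [hcn]
    obtain ⟨n', β', hw', _, _, _, _, hsg, _⟩ := hf.mem w hcov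
    have hz : ∀ k, (S (X.sc k)).ζ ≤ 1 / 1000 := fun k => (hSml _).ζ1.trans (by norm_num)
    have huniq := Pool.Agent.Work.MP_db9399_rg_helper42.g6c hD (by omega) (hz n) (hz n') hw hw'
    rw [← huniq.1] at hsg
    set b := t w (f w) with hb
    have h1 := su_tn B n false b
    have h2 := su_tn B n true b
    have h3 := B.gw n β w false hw
    have h4 := B.gw n β w true hw
    rw [← hb] at h3 h4
    rw [ub_eq, h3, add_zero] at h1
    rw [ub_eq, h4, add_zero] at h2
    have h5 := B.lx n false b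
    have h6 := B.lx n true b
    unfold ls at h1 h2
    have h7 : |sg (Fp (xt G X) X (tn G d X t m m2 pr f) n) (sdn X.P n) b|
        ≤ |sg (Fp (xt G X) X t n) (sdn X.P n) b| + 1 := by
      rw [sg_eq, sg_eq]
      have h8 : |((su G X (tn G d X t m m2 pr f) n false b : ℤ)
          - (su G X (tn G d X t m m2 pr f) n true b : ℤ))
          - ((su G X t n false b : ℤ) - (su G X t n true b : ℤ))| ≤ 1 := by
        rw [abs_le]
        constructor <;> omega
      have h9 := abs_sub_abs_le_abs_sub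
        ((su G X (tn G d X t m m2 pr f) n false b : ℤ)
          - (su G X (tn G d X t m m2 pr f) n true b : ℤ))
        ((su G X t n false b : ℤ) - (su G X t n true b : ℤ))
      linarith
    have h10 : |((sg (Fp (xt G X) X (tn G d X t m m2 pr f) n) (sdn X.P n) b : ℤ) : ℝ)|
        ≤ |((sg (Fp (xt G X) X t n) (sdn X.P n) b : ℤ) : ℝ)| + 1 := by
      rw [← Int.cast_abs, ← Int.cast_abs]
      exact_mod_cast h7
    linarith

end Pool.Agent.Work.MP_db9399_rg_helper30
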